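import Pool.Agent.H834R2.Act

/-! Free cyclic actions of every odd order and an involution on the manifold `X` of
`Pool.Agent.H834R2`. -/

set_option autoImplicit false

open Set Filter Topology
open scoped Topology ContDiff Real Manifold

namespace Pool.Agent.Y524S

open Pool.Agent.H834R2

noncomputable section

variable {j : ℤ} {p : ℝ} (hp : p = 1 + 4 * j) (hp0 : p ≠ 0)

/-- no fixed points, for every odd order -/
lemma tX_free_odd {m : ℕ} (hm : m % 2 = 1) {ε : ℤ} (hmp : (ε : ℝ) * m = p) {k : ℤ}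
    (hk : ¬ (m : ℤ) ∣ k) (x : X) : tX hp hp0 k x ≠ x := by
  obtain ⟨σ, rfl⟩ := pr_cov.surjective x
  rw [tX_pr]
  intro h
  obtain ⟨g, hg⟩ := pr_cov.apply_eq_iff_mem_orbit.mp h
  have hg' : g • σ = tS hp hp0 k σ := hg
  have h3 : σ.1.1 3 + ((g.toAdd 3 : ℤ) : ℝ) = σ.1.1 3 + 2 * k / p :=
    congrArg (fun τ : S => τ.1.1 3) hg'
  have h4 : ((g.toAdd 3 : ℤ) : ℝ) = 2 * k / p := by linarith
  have h5 : ((g.toAdd 3 : ℤ) : ℝ) * p = 2 * k := by
    rw [h4]; field_simp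
  rw [← hmp] at h5
  have h6 : (g.toAdd 3) * (ε * (m : ℤ)) = 2 * k := by exact_mod_cast h5
  have h7 : (m : ℤ) ∣ 2 * k := ⟨g.toAdd 3 * ε, by rw [← h6]; ring⟩
  have hc : IsCoprime (m : ℤ) 2 := by
    rw [Int.isCoprime_iff_gcd_eq_one]
    have : Nat.Coprime m 2 := (Nat.coprime_comm.mp ((Nat.coprime_two_left).2
      (Nat.odd_iff.2 hm)))
    exact this
  exact hk (hc.dvd_of_dvd_mul_left h7)

/-- For every odd `m` the cyclic group of order `m` acts freely and smoothly. -/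
theorem exists_free_odd (m : ℕ) (hm : m % 2 = 1) :
    ∃ _ : MulAction (Multiplicative (ZMod m)) X,
      (∀ g : Multiplicative (ZMod m), ContMDiff (𝓡 4) (𝓡 4) ∞ (fun x : X => g • x)) ∧
      ∀ g : Multiplicative (ZMod m), g ≠ 1 → ∀ x : X, g • x ≠ x := by
  have hm0 : m ≠ 0 := by rintro rfl; simp at hm
  have : NeZero m := ⟨hm0⟩
  obtain ⟨j, ε, hε, hj⟩ : ∃ j ε : ℤ, ε * ε = 1 ∧ ε * (m : ℤ) = 1 + 4 * j := by
    rcases (by omega : m % 4 = 1 ∨ m % 4 = 3) with h | h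
    · exact ⟨(m : ℤ) / 4, 1, by norm_num, by omega⟩
    · exact ⟨(-(m : ℤ) - 1) / 4, -1, by norm_num, by omega⟩
  have hp : (ε : ℝ) * m = 1 + 4 * j := by exact_mod_cast hj
  have hε0 : ε ≠ 0 := by rintro rfl; simp at hε
  have hp0 : (ε : ℝ) * m ≠ 0 :=
    mul_ne_zero (by exact_mod_cast hε0) (by exact_mod_cast hm0)
  let A : MulAction (Multiplicative (ZMod m)) X :=
    { smul := fun g x => tX hp hp0 (g.toAdd.val : ℤ) x
      one_smul := by
        intro x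
        show tX hp hp0 (((0 : ZMod m).val : ℕ) : ℤ) x = x
        rw [ZMod.val_zero]
        exact tX_zero hp hp0 x
      mul_smul := by
        intro g h x
        show tX hp hp0 (((g.toAdd + h.toAdd).val : ℕ) : ℤ) x =
          tX hp hp0 ((g.toAdd.val : ℕ) : ℤ) (tX hp hp0 ((h.toAdd.val : ℕ) : ℤ) x)
        rw [← tX_add]
        have h1 : (g.toAdd + h.toAdd).val = (g.toAdd.val + h.toAdd.val) % m := ZMod.val_add _ _
        have h2 := Nat.mod_add_div (g.toAdd.val + h.toAdd.val) m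
        rw [← h1] at h2
        have h3 : ((g.toAdd.val : ℕ) : ℤ) + ((h.toAdd.val : ℕ) : ℤ) =
            ((g.toAdd + h.toAdd).val : ℤ) +
              (ε * (m : ℤ)) * (ε * (((g.toAdd.val + h.toAdd.val) / m : ℕ) : ℤ)) := by
          have h4 : (ε * (m : ℤ)) * (ε * (((g.toAdd.val + h.toAdd.val) / m : ℕ) : ℤ)) =
              (m : ℤ) * (((g.toAdd.val + h.toAdd.val) / m : ℕ) : ℤ) := by
            linear_combination ((m : ℤ) * (((g.toAdd.val + h.toAdd.val) / m : ℕ) : ℤ)) * hε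
          rw [h4]
          exact_mod_cast h2.symm
        rw [h3, tX_add, tX_mul hp hp0 _ (ε * (m : ℤ)) (by push_cast; ring)] }
  refine ⟨A, ?_, ?_⟩
  · intro g
    exact tX_smooth hp hp0 _
  · intro g hg x
    apply tX_free_odd hp hp0 hm rfl
    intro hdvd
    apply hg
    have h1 : m ∣ g.toAdd.val := by exact_mod_cast hdvd
    have h2 : g.toAdd.val = 0 := Nat.eq_zero_of_dvd_of_lt h1 (ZMod.val_lt _)
    have h3 : g.toAdd = 0 := (ZMod.val_eq_zero _).1 h2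
    exact Multiplicative.toAdd.injective h3

/-! ### The involution -/

/-- rotation by `π` about the third axis -/
def iE (ξ : E5) : E5 := pE (-ξ.1 0) (-ξ.1 1) (ξ.1 2) (ξ.1 3) ξ.2

lemma iE_0 (ξ : E5) : (iE ξ).1 0 = -ξ.1 0 := rfl
lemma iE_1 (ξ : E5) : (iE ξ).1 1 = -ξ.1 1 := rfl
lemma iE_2 (ξ : E5) : (iE ξ).1 2 = ξ.1 2 := rfl
lemma iE_3 (ξ : E5) : (iE ξ).1 3 = ξ.1 3 := rfl
lemma iE_y (ξ : E5) : (iE ξ).2 = ξ.2 := rfl

lemma iE_iE (ξ : E5) : iE (iE ξ) = ξ := by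
  apply E5_ext
  · rw [iE_0, iE_0, neg_neg]
  · rw [iE_1, iE_1, neg_neg]
  · rfl
  · rfl
  · rfl

lemma contDiff_iE : ContDiff ℝ ∞ iE :=
  contDiff_pE (contDiff_coord 0).neg (contDiff_coord 1).neg (contDiff_coord 2)
    (contDiff_coord 3) contDiff_snd

lemma Phi_iE (ξ : E5) : Phi (iE ξ) = Phi ξ := by
  obtain ⟨a, b, c⟩ := cell_near ξ
  have h := Phi_eq_G (n := ![-cell ξ 0, -cell ξ 1, cell ξ 2]) (ξ := iE ξ)
    (by
      rw [iE_0]
      have : -ξ.1 0 - 10 * (((![-cell ξ 0, -cell ξ 1, cell ξ 2] : Fin 3 → ℤ) 0 : ℤ) : ℝ) =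
        -(ξ.1 0 - 10 * cell ξ 0) := by
        simp; ring
      rw [this, abs_neg]; linarith)
    (by
      rw [iE_1]
      have : -ξ.1 1 - 10 * (((![-cell ξ 0, -cell ξ 1, cell ξ 2] : Fin 3 → ℤ) 1 : ℤ) : ℝ) =
        -(ξ.1 1 - 10 * cell ξ 1) := by
        simp; ring
      rw [this, abs_neg]; linarith)
    (by
      rw [iE_2]
      have : ξ.1 2 - 10 * (((![-cell ξ 0, -cell ξ 1, cell ξ 2] : Fin 3 → ℤ) 2 : ℤ) : ℝ) =
        (ξ.1 2 - 10 * cell ξ 2) := by
        simp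
      rw [this]; linarith)
  rw [h]
  show G _ _ = G (cell ξ) ξ
  unfold G
  rw [iE_0, iE_1, iE_2, iE_3, iE_y]
  have e0 : -ξ.1 0 - 10 * (((![-cell ξ 0, -cell ξ 1, cell ξ 2] : Fin 3 → ℤ) 0 : ℤ) : ℝ) =
      -(ξ.1 0 - 10 * cell ξ 0) := by simp; ring
  have e1 : -ξ.1 1 - 10 * (((![-cell ξ 0, -cell ξ 1, cell ξ 2] : Fin 3 → ℤ) 1 : ℤ) : ℝ) =
      -(ξ.1 1 - 10 * cell ξ 1) := by simp; ring
  have e2 : ξ.1 2 - 10 * (((![-cell ξ 0, -cell ξ 1, cell ξ 2] : Fin 3 → ℤ) 2 : ℤ) : ℝ) =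
      ξ.1 2 - 10 * cell ξ 2 := by simp
  rw [e0, e1, e2]
  apply Fq_congr
  · unfold rq; ring
  · unfold rp; ring

/-- the involution on the hypersurface -/
def iS (σ : S) : S := ⟨iE σ.1, by
  show Phi _ = 0
  rw [Phi_iE]; exact σ.2⟩

lemma iS_val (σ : S) : (iS σ).1 = iE σ.1 := rfl

lemma iS_iS (σ : S) : iS (iS σ) = σ := Subtype.ext (iE_iE _)

/-- the induced involution of the lattice -/
def iL (g : Pool.Agent.H834R2.Lat) : Pool.Agent.H834R2.Lat :=
  Multiplicative.ofAdd ![-g.toAdd 0, -g.toAdd 1, g.toAdd 2, g.toAdd 3]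

lemma iS_smul (g : Pool.Agent.H834R2.Lat) (σ : S) : iS (g • σ) = iL g • iS σ := by
  apply Subtype.ext
  rw [iS_val, smul_val, smul_val, iS_val]
  apply E5_ext
  · show -(σ.1.1 0 + 10 * (g.toAdd 0 : ℝ)) = -σ.1.1 0 + 10 * (((-g.toAdd 0 : ℤ)) : ℝ)
    push_cast; ring
  · show -(σ.1.1 1 + 10 * (g.toAdd 1 : ℝ)) = -σ.1.1 1 + 10 * (((-g.toAdd 1 : ℤ)) : ℝ)
    push_cast; ring
  · rfl
  · rfl
  · rfl

/-- the involution on the quotient -/
def iX (x : X) : X := pr (iS (sec x))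

lemma iX_pr (σ : S) : iX (pr σ) = pr (iS σ) := by
  obtain ⟨g, hg⟩ := pr_cov.apply_eq_iff_mem_orbit.mp (pr_sec (pr σ))
  have hg' : g • σ = sec (pr σ) := hg
  unfold iX
  rw [← hg', iS_smul, pr_smul]

lemma iX_iX (x : X) : iX (iX x) = x := by
  obtain ⟨σ, rfl⟩ := pr_cov.surjective x
  rw [iX_pr, iX_pr, iS_iS]

lemma iX_smooth : ContMDiff (𝓡 4) (𝓡 4) ∞ iX := by
  intro x
  have hx : x ∈ (li (sec x)).source := by
    have := li_mem (sec x)
    rwa [pr_sec] at this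
  have h1 : ContMDiffAt (𝓡 4) 𝓘(ℝ, E5) ∞ (fun w => (iS (li (sec x) w)).1) x :=
    contDiff_iE.contMDiff.contMDiffAt.comp x (contMDiffAt_li (sec x) hx)
  have h2 := contMDiffAt_pr h1
  apply h2.congr_of_eventuallyEq
  filter_upwards [(li (sec x)).open_source.mem_nhds hx] with w hw
  rw [← iX_pr, pr_li _ hw]

/-- a point that is moved by the involution -/
def mp : E5 := pE (5 / 2) 0 0 0 (1 / 4)

lemma mp_mem : Phi mp = 0 := by
  have h := Phi_eq_G (n := 0) (ξ := mp)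
    (by show |(5 / 2 : ℝ) - 10 * (((0 : Fin 3 → ℤ) 0 : ℤ) : ℝ)| < 6
        norm_num [abs_lt])
    (by show |(0 : ℝ) - 10 * (((0 : Fin 3 → ℤ) 1 : ℤ) : ℝ)| < 6
        norm_num [abs_lt])
    (by show |(0 : ℝ) - 10 * (((0 : Fin 3 → ℤ) 2 : ℤ) : ℝ)| < 6
        norm_num [abs_lt])
  rw [h, G_far]
  · show (1 / 4 : ℝ) - 1 / 4 = 0
    norm_num
  · show (4 : ℝ) ≤ ((5 / 2 : ℝ) - 10 * (((0 : Fin 3 → ℤ) 0 : ℤ) : ℝ)) ^ 2 +
      ((0 : ℝ) - 10 * (((0 : Fin 3 → ℤ) 1 : ℤ) : ℝ)) ^ 2 +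
      ((0 : ℝ) - 10 * (((0 : Fin 3 → ℤ) 2 : ℤ) : ℝ)) ^ 2
    norm_num

lemma iX_ne : iX (pr ⟨mp, mp_mem⟩) ≠ pr ⟨mp, mp_mem⟩ := by
  rw [iX_pr]
  intro h
  obtain ⟨g, hg⟩ := pr_cov.apply_eq_iff_mem_orbit.mp h
  have hg' : g • (⟨mp, mp_mem⟩ : S) = iS ⟨mp, mp_mem⟩ := hg
  have h3 : (5 / 2 : ℝ) + 10 * ((g.toAdd 0 : ℤ) : ℝ) = -(5 / 2) :=
    congrArg (fun τ : S => τ.1.1 0) hg'
  have h4 : (2 * (g.toAdd 0) + 1 : ℤ) = 0 := by
    have : (2 * ((g.toAdd 0 : ℤ) : ℝ) + 1) = 0 := by linarith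
    exact_mod_cast this
  omega

/-- The group of order two acts smoothly and nontrivially. -/
theorem exists_involution :
    ∃ _ : MulAction (Multiplicative (ZMod 2)) X,
      (∀ g : Multiplicative (ZMod 2), ContMDiff (𝓡 4) (𝓡 4) ∞ (fun x : X => g • x)) ∧
      ∃ (g : Multiplicative (ZMod 2)) (x : X), g • x ≠ x := by
  let A : MulAction (Multiplicative (ZMod 2)) X :=
    { smul := fun g x => if g.toAdd = 0 then x else iX x
      one_smul := by
        intro x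
        show (if (0 : ZMod 2) = 0 then x else iX x) = x
        rw [if_pos rfl]
      mul_smul := by
        intro g h x
        show (if g.toAdd + h.toAdd = 0 then x else iX x) =
          if g.toAdd = 0 then (if h.toAdd = 0 then x else iX x) else
            iX (if h.toAdd = 0 then x else iX x)
        have key : ∀ a b : ZMod 2, (if a + b = 0 then x else iX x) =
            if a = 0 then (if b = 0 then x else iX x) else iX (if b = 0 then x else iX x) := by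
          intro a b
          have ha : a = 0 ∨ a = 1 := by revert a; decide
          have hb : b = 0 ∨ b = 1 := by revert b; decide
          rcases ha with rfl | rfl <;> rcases hb with rfl | rfl
          · simp
          · simp
          · simp
          · have e : (1 : ZMod 2) + 1 = 0 := by decide
            have e1 : ¬ (1 : ZMod 2) = 0 := by decide
            rw [e, if_pos rfl, if_neg e1, if_neg e1, iX_iX]
        exact key _ _ }
  refine ⟨A, ?_, ?_⟩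
  · intro g
    show ContMDiff (𝓡 4) (𝓡 4) ∞ (fun x : X => if g.toAdd = 0 then x else iX x)
    by_cases h : g.toAdd = 0
    · simp only [h, if_true]
      exact contMDiff_id
    · simp only [h, if_false]
      exact iX_smooth
  · refine ⟨Multiplicative.ofAdd 1, pr ⟨mp, mp_mem⟩, ?_⟩
    show (if (1 : ZMod 2) = 0 then _ else iX (pr ⟨mp, mp_mem⟩)) ≠ _
    rw [if_neg (by decide)]
    exact iX_ne

end

end Pool.Agent.Y524S
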